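import Pool.Agent.Lib.helper29.Iso2

set_option autoImplicit false

namespace Pool.Agent.Results.MP_9703cd_gt.NotIsothermal

open Set Pool.Agent.Lib.H29.Iso
open scoped ContDiff

theorem result : ∃ (T : ℝ × ℝ → ℝ) (U : Set (ℝ × ℝ)), IsContTNorm T ∧ IsOpen U ∧ U.Nonempty ∧
    U ⊆ Ioo 0 1 ×ˢ Ioo 0 1 ∧ ContDiffOn ℝ ∞ T U ∧
    ∀ p ∈ U, ¬Umbilic T p ∧ ¬IsothermalNear T U p := by
  refine ⟨TT, UU, TT_tnorm, UU_open, ⟨(3 / 4, 1 / 4), ?_⟩, ?_, ?_,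
    fun p hp => ⟨not_umbilic hp, not_iso hp⟩⟩
  · constructor <;> constructor <;> norm_num
  · rintro p ⟨⟨a1, a2⟩, a3, a4⟩
    exact ⟨⟨by linarith, a2⟩, a3, by linarith⟩
  · refine ContDiffOn.congr (f := hh) ?_ fun p hp => TT_eq hp
    unfold hh
    fun_prop

end Pool.Agent.Results.MP_9703cd_gt.NotIsothermal
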